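import Pool.Agent.V1187.Mghd5

/-!
# Uniqueness of maximal globally hyperbolic developments for a model wave equation

For every smooth datum with `Ψ ≠ -4` on `{t = 0}` there is a maximal globally hyperbolic development,
it contains every globally hyperbolic development, and it is the only maximal one.
-/

set_option autoImplicit false

open Set

namespace Pool.Agent.Results.MP_0eca13_an.UniqueMGHD

open Pool.Agent.V1187.Mghd

/-- For all smooth data `(φ₀, φ₁)` with `Ψ ≠ -4` initially: there is a maximal globally hyperbolic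
development `(Ω, Φ)`; every globally hyperbolic development is a restriction of it; and every maximal
globally hyperbolic development equals it. -/
theorem result (φ₀ φ₁ : ℝ → ℝ) (h₀ : ContDiff ℝ (⊤ : ℕ∞) φ₀) (h₁ : ContDiff ℝ (⊤ : ℕ∞) φ₁)
    (hne : ∀ x, φ₁ x - 2 * deriv φ₀ x ≠ -4) :
    ∃ (Ω : Set (ℝ × ℝ)) (Φ : ℝ × ℝ → ℝ), IsMGHD φ₀ φ₁ Ω Φ ∧
      (∀ (Ω' : Set (ℝ × ℝ)) (Φ' : ℝ × ℝ → ℝ), IsGHD φ₀ φ₁ Ω' Φ' → Ω' ⊆ Ω ∧ EqOn Φ' Φ Ω') ∧
      (∀ (Ω' : Set (ℝ × ℝ)) (Φ' : ℝ × ℝ → ℝ), IsMGHD φ₀ φ₁ Ω' Φ' → Ω' = Ω ∧ EqOn Φ' Φ Ω) :=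
  main φ₀ φ₁ h₀ h₁ hne

end Pool.Agent.Results.MP_0eca13_an.UniqueMGHD
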